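import Pool.Agent.Helper86.LO.Fin

/-!
MP_f0457e_nt, Q1 (Lang's lower bound for the canonical height): explicit bound in terms of the
minimal discriminant, polynomial in all parameters, when after removing `s` finite places the
finite places `w` with `ord_w j < -N` contribute at most `(1 - δ)` times the logarithm of the norm
of the minimal discriminant.
-/

set_option autoImplicit false

open Filter Topology NumberField WeierstrassCurve

namespace Pool.Agent.Results.MP_f0457e_nt.FinitePart

section

variable {K : Type*} [Field K] [NumberField K]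

/-- Absolute logarithmic Weil height of the `x`-coordinate of a point (`xRep` is `(x : 1)` for an
affine point and `(1 : 0)` for the origin; Mathlib's `logHeight` is relative to `K`). -/
noncomputable def heightX {W : Affine K} (P : W.Point) : ℝ :=
  Height.logHeight P.xRep / Module.finrank ℚ K

/-- `H` is the Neron-Tate canonical height of `P`. -/
def IsCanonicalHeight [DecidableEq K] {W : Affine K} (P : W.Point) (H : ℝ) : Prop :=
  Tendsto (fun n : ℕ => heightX (2 ^ n • P) / 4 ^ n) atTop (𝓝 H)

/-- The coefficients of the equation `V` are integral at the finite place `w`. -/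
def IsIntegralAt (w : FinitePlace K) (V : WeierstrassCurve K) : Prop :=
  w V.a₁ ≤ 1 ∧ w V.a₂ ≤ 1 ∧ w V.a₃ ≤ 1 ∧ w V.a₄ ≤ 1 ∧ w V.a₆ ≤ 1

variable (W : Affine K)

/-- Contribution of a finite place to the minimal discriminant: `log (1/|Δ|_w) / [K : ℚ]` for
the largest `|Δ|_w` among the discriminants of the `w`-integral equations of the curve. -/
noncomputable def discPart (w : FinitePlace K) : ℝ :=
  -Real.log (sSup {t : ℝ | ∃ C : VariableChange K, IsIntegralAt w (C • W) ∧
    t = w (C • W).Δ}) / Module.finrank ℚ K

variable [W.IsElliptic]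

/-- Absolute logarithmic Weil height of the `j`-invariant. -/
noncomputable def heightJ : ℝ := Height.logHeight₁ W.j / Module.finrank ℚ K

/-- Contribution of an infinite place to the height of `j`. -/
noncomputable def infPart (w : InfinitePlace K) : ℝ :=
  w.mult * Real.posLog (w W.j) / Module.finrank ℚ K

/-- Contribution of a finite place to the height of `j`. -/
noncomputable def finPart (w : FinitePlace K) : ℝ :=
  Real.posLog (w W.j) / Module.finrank ℚ K

/-- `log N(minimal discriminant) / [K : ℚ]`. -/
noncomputable def minDisc : ℝ := ∑ᶠ w : FinitePlace K, discPart W w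

/-- The infinite part of the height of `j`. -/
noncomputable def infHeight : ℝ := ∑ w : InfinitePlace K, infPart W w

/-- `ord_w j ≥ -N`: `|p ^ N * j|_w ≤ 1` for a uniformizer `p` at `w`. -/
def PoleLE (N : ℕ) (w : FinitePlace K) : Prop :=
  ∃ p : K, p ≠ 0 ∧ w p < 1 ∧ (∀ q : K, w q < 1 → w q ≤ w p) ∧ w (p ^ N * W.j) ≤ 1

open Classical in
/-- Contribution of the finite places outside `B` with `ord_w j < -N`. -/
noncomputable def deepPart (B : Finset (FinitePlace K)) (N : ℕ) : ℝ :=
  ∑ᶠ w : FinitePlace K, (if w ∈ B ∨ PoleLE W N w then 0 else finPart W w)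

theorem sum_finPart : ∑ᶠ w : FinitePlace K, finPart W w =
    (∑ᶠ w : FinitePlace K, Real.posLog (w W.j)) / Module.finrank ℚ K := by
  unfold finPart
  rw [div_eq_mul_inv (finsum _), finsum_mul']
  · simp only [div_eq_mul_inv]
  · have h := Pool.Agent.Helper86.LH.fin_gt (K := K) W.j
    refine Set.Finite.subset (s := {w : FinitePlace K | 1 < w.val W.j}) h ?_
    intro w hw
    by_contra hc
    apply hw
    simp only [Set.mem_ofPred_eq, not_lt] at hc
    have hwv : w W.j = w.val W.j := rfl
    simp only
    rw [hwv, Real.posLog_eq_log_max_one (w.val.nonneg _), max_eq_left hc, Real.log_one]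

/-- The height of `j` is the sum of the contributions of all places. -/
theorem heightJ_eq : heightJ W = ∑ w : InfinitePlace K, infPart W w +
    ∑ᶠ w : FinitePlace K, finPart W w := by
  rw [sum_finPart]
  unfold heightJ infPart
  rw [NumberField.logHeight₁_eq, add_div, Finset.sum_div]

theorem discPart_eq (w : FinitePlace K) :
    discPart W w = Pool.Agent.Helper86.LK.logMinDisc w.val W / Module.finrank ℚ K := rfl

/-- The minimal discriminant dominates the denominator of `j`, place by place. -/
theorem finPart_le_discPart (w : FinitePlace K) : finPart W w ≤ discPart W w := by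
  have h6 : (6 : K) ≠ 0 := by norm_num
  have hna : IsNonarchimedean w.val := Height.AdmissibleAbsValues.isNonarchimedean w.val w.2
  rw [discPart_eq, finPart]
  have hd : (0 : ℝ) < Module.finrank ℚ K := by exact_mod_cast Module.finrank_pos
  rw [div_le_div_iff_of_pos_right hd]
  exact Pool.Agent.Helper86.LK.posLog_le_min W hna h6

theorem sum_discPart : ∑ᶠ w : FinitePlace K, discPart W w =
    Pool.Agent.Helper86.LK.dmin W / Module.finrank ℚ K := by
  have h6 : (6 : K) ≠ 0 := by norm_num
  obtain ⟨S, hS⟩ := Pool.Agent.Helper86.LH.exists_big (W := W) W.isUnit_Δ.ne_zero h6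
  simp only [discPart_eq]
  rw [Pool.Agent.Helper86.LK.dmin, div_eq_mul_inv (finsum _), finsum_mul']
  · simp only [div_eq_mul_inv]
    rfl
  · refine Set.Finite.subset (s := (S : Set _)) (Finset.finite_toSet S) ?_
    intro w hw
    by_contra hc
    apply hw
    exact Pool.Agent.Helper86.LK.min_out W hS (fun h => hc (Finset.mem_coe.mpr h))

theorem deepPart_eq (B : Finset (FinitePlace K)) (N : ℕ) :
    deepPart W B N = Pool.Agent.Helper86.LO.deepF W B N / Module.finrank ℚ K := by
  classical
  unfold deepPart Pool.Agent.Helper86.LO.deepF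
  rw [div_eq_mul_inv, finsum_mul']
  · apply finsum_congr
    intro w
    unfold finPart
    rw [ite_mul, zero_mul, div_eq_mul_inv]
    by_cases hc : w ∈ B ∨ PoleLE W N w
    · exact (if_pos hc).trans (if_pos hc).symm
    · exact (if_neg hc).trans (if_neg hc).symm
  · have h := Pool.Agent.Helper86.LH.fin_gt (K := K) W.j
    refine Set.Finite.subset h ?_
    intro w hw
    by_contra hc
    apply hw
    simp only [Set.mem_ofPred_eq, not_lt] at hc
    dsimp only
    rw [Real.posLog_eq_log_max_one (w.val.nonneg _), max_eq_left hc, Real.log_one, ite_self]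

end

/-- Explicit lower bound for the canonical height, polynomial in `s`, `N`, `δ`. -/
theorem result {K : Type*} [Field K] [NumberField K] [DecidableEq K] (W : Affine K)
    [W.IsElliptic] (P : W.Point) (hP : ∀ n : ℕ, 0 < n → n • P ≠ 0) :
    ∃ H : ℝ, IsCanonicalHeight P H ∧ ∀ (s N : ℕ) (δ ε : ℝ), 0 < δ → δ ≤ 1 →
      ε = δ / (2 * (s + N ^ 2 + N + 1)) →
      (∃ B : Finset (FinitePlace K), B.card ≤ s ∧ deepPart W B N ≤ (1 - δ) * minDisc W) →
      ε ^ 3 * minDisc W / 450000 - ε ^ 2 * (1 + infHeight W) / 50 ≤ H := by
  obtain ⟨H, hH, hHm, hH0⟩ := Pool.Agent.Helper86.LH.canon W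
  have hd : (0 : ℝ) < Module.finrank ℚ K := by
    exact_mod_cast Module.finrank_pos
  have ht : (Height.totalWeight K : ℝ) = Module.finrank ℚ K := by
    rw [NumberField.totalWeight_eq_finrank]
  refine ⟨H P / Module.finrank ℚ K, ?_, fun s N δ ε hδ0 hδ1 hε h => ?_⟩
  · have h1 := (hH P).div_const (Module.finrank ℚ K : ℝ)
    refine h1.congr fun n => ?_
    unfold heightX
    ring
  · obtain ⟨B, hB, hw⟩ := h
    rw [deepPart_eq, minDisc, sum_discPart, ← mul_div_assoc, div_le_div_iff_of_pos_right hd] at hw
    have key := Pool.Agent.Helper86.LO.relF W hδ0 hδ1 P hP hH hHm hH0 hε B hB hw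
    have e2 : infHeight W * Module.finrank ℚ K = Pool.Agent.Helper86.LH.hinf W := by
      unfold infHeight infPart Pool.Agent.Helper86.LH.hinf
      rw [Pool.Agent.Helper86.LH.asum_eq, Finset.sum_mul]
      refine Finset.sum_congr rfl fun v _ => ?_
      rw [div_mul_cancel₀ _ hd.ne']
      rfl
    rw [ht, ← e2] at key
    rw [le_div_iff₀ hd, sub_mul, minDisc, sum_discPart]
    have e3 : ε ^ 3 * (Pool.Agent.Helper86.LK.dmin W / Module.finrank ℚ K) / 450000 *
        Module.finrank ℚ K = ε ^ 3 * Pool.Agent.Helper86.LK.dmin W / 450000 := by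
      field_simp
    have e4 : ε ^ 2 * (1 + infHeight W) / 50 * Module.finrank ℚ K =
        ε ^ 2 * (Module.finrank ℚ K + infHeight W * Module.finrank ℚ K) / 50 := by
      ring
    rw [e3, e4]
    exact key

end Pool.Agent.Results.MP_f0457e_nt.FinitePart
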