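import Pool.Agent.Helper86.LP.Main

/-!
MP_f0457e_nt, Q1 (Lang's lower bound for the canonical height): Lang's inequality for all
elliptic curves over a number field for which, after removing `s` places, the infinite places and
the finite places `w` with `ord_w j < -N` contribute at most `(1 - δ)` times the height of the
curve.
-/

set_option autoImplicit false

open Filter Topology NumberField WeierstrassCurve

namespace Pool.Agent.Results.MP_f0457e_nt.ManyDeepPoles

section

variable {K : Type*} [Field K] [NumberField K]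

/-- Absolute logarithmic Weil height of the `x`-coordinate of a point (`xRep` is `(x : 1)` for an
affine point and `(1 : 0)` for the origin; Mathlib's `logHeight` is relative to `K`). -/
noncomputable def heightX {W : Affine K} (P : W.Point) : ℝ :=
  Height.logHeight P.xRep / Module.finrank ℚ K

/-- `H` is the Neron-Tate canonical height of `P`. -/
def IsCanonicalHeight [DecidableEq K] {W : Affine K} (P : W.Point) (H : ℝ) : Prop :=
  Tendsto (fun n : ℕ => heightX (2 ^ n • P) / 4 ^ n) atTop (𝓝 H)

/-- The coefficients of the equation `V` are integral at the finite place `w`. -/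
def IsIntegralAt (w : FinitePlace K) (V : WeierstrassCurve K) : Prop :=
  w V.a₁ ≤ 1 ∧ w V.a₂ ≤ 1 ∧ w V.a₃ ≤ 1 ∧ w V.a₄ ≤ 1 ∧ w V.a₆ ≤ 1

variable (W : Affine K)

/-- Contribution of a finite place to the minimal discriminant: `log (1/|Δ|_w) / [K : ℚ]` for
the largest `|Δ|_w` among the discriminants of the `w`-integral equations of the curve. -/
noncomputable def discPart (w : FinitePlace K) : ℝ :=
  -Real.log (sSup {t : ℝ | ∃ C : VariableChange K, IsIntegralAt w (C • W) ∧
    t = w (C • W).Δ}) / Module.finrank ℚ K

variable [W.IsElliptic]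

/-- Absolute logarithmic Weil height of the `j`-invariant. -/
noncomputable def heightJ : ℝ := Height.logHeight₁ W.j / Module.finrank ℚ K

/-- Contribution of an infinite place to the height of `j`. -/
noncomputable def infPart (w : InfinitePlace K) : ℝ :=
  w.mult * Real.posLog (w W.j) / Module.finrank ℚ K

/-- Contribution of a finite place to the height of `j`. -/
noncomputable def finPart (w : FinitePlace K) : ℝ :=
  Real.posLog (w W.j) / Module.finrank ℚ K

/-- `(log N(minimal discriminant) + ∑ log⁺ |j|_w) / [K : ℚ]`, the sum over infinite places. -/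
noncomputable def heightE : ℝ :=
  ∑ᶠ w : FinitePlace K, discPart W w + ∑ w : InfinitePlace K, infPart W w

/-- `ord_w j ≥ -N`: `|p ^ N * j|_w ≤ 1` for a uniformizer `p` at `w`. -/
def PoleLE (N : ℕ) (w : FinitePlace K) : Prop :=
  ∃ p : K, p ≠ 0 ∧ w p < 1 ∧ (∀ q : K, w q < 1 → w q ≤ w p) ∧ w (p ^ N * W.j) ≤ 1

open Classical in
/-- Contribution of the infinite places outside `A` and of the finite places outside `B` with
`ord_w j < -N`. -/
noncomputable def deepPart (A : Finset (InfinitePlace K)) (B : Finset (FinitePlace K)) (N : ℕ) :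
    ℝ :=
  ∑ w ∈ Aᶜ, infPart W w +
    ∑ᶠ w : FinitePlace K, (if w ∈ B ∨ PoleLE W N w then 0 else finPart W w)

theorem sum_finPart : ∑ᶠ w : FinitePlace K, finPart W w =
    (∑ᶠ w : FinitePlace K, Real.posLog (w W.j)) / Module.finrank ℚ K := by
  unfold finPart
  rw [div_eq_mul_inv (finsum _), finsum_mul']
  · simp only [div_eq_mul_inv]
  · have h := Pool.Agent.Helper86.LH.fin_gt (K := K) W.j
    refine Set.Finite.subset (s := {w : FinitePlace K | 1 < w.val W.j}) h ?_
    intro w hw
    by_contra hc
    apply hw
    simp only [Set.mem_ofPred_eq, not_lt] at hc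
    have hwv : w W.j = w.val W.j := rfl
    simp only
    rw [hwv, Real.posLog_eq_log_max_one (w.val.nonneg _), max_eq_left hc, Real.log_one]

/-- The height of `j` is the sum of the contributions of all places. -/
theorem heightJ_eq : heightJ W = ∑ w : InfinitePlace K, infPart W w +
    ∑ᶠ w : FinitePlace K, finPart W w := by
  rw [sum_finPart]
  unfold heightJ infPart
  rw [NumberField.logHeight₁_eq, add_div, Finset.sum_div]

theorem discPart_eq (w : FinitePlace K) :
    discPart W w = Pool.Agent.Helper86.LK.logMinDisc w.val W / Module.finrank ℚ K := rfl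

/-- The minimal discriminant dominates the denominator of `j`, place by place. -/
theorem finPart_le_discPart (w : FinitePlace K) : finPart W w ≤ discPart W w := by
  have h6 : (6 : K) ≠ 0 := by norm_num
  have hna : IsNonarchimedean w.val := Height.AdmissibleAbsValues.isNonarchimedean w.val w.2
  rw [discPart_eq, finPart]
  have hd : (0 : ℝ) < Module.finrank ℚ K := by exact_mod_cast Module.finrank_pos
  rw [div_le_div_iff_of_pos_right hd]
  exact Pool.Agent.Helper86.LK.posLog_le_min W hna h6

theorem sum_discPart : ∑ᶠ w : FinitePlace K, discPart W w =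
    Pool.Agent.Helper86.LK.dmin W / Module.finrank ℚ K := by
  have h6 : (6 : K) ≠ 0 := by norm_num
  obtain ⟨S, hS⟩ := Pool.Agent.Helper86.LH.exists_big (W := W) W.isUnit_Δ.ne_zero h6
  simp only [discPart_eq]
  rw [Pool.Agent.Helper86.LK.dmin, div_eq_mul_inv (finsum _), finsum_mul']
  · simp only [div_eq_mul_inv]
    rfl
  · refine Set.Finite.subset (s := (S : Set _)) (Finset.finite_toSet S) ?_
    intro w hw
    by_contra hc
    apply hw
    exact Pool.Agent.Helper86.LK.min_out W hS (fun h => hc (Finset.mem_coe.mpr h))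

theorem deepPart_eq (A : Finset (InfinitePlace K)) (B : Finset (FinitePlace K)) (N : ℕ) :
    deepPart W A B N = Pool.Agent.Helper86.LN.deepR W A B N / Module.finrank ℚ K := by
  classical
  unfold deepPart Pool.Agent.Helper86.LN.deepR
  rw [add_div]
  congr 1
  · unfold infPart
    rw [Finset.sum_div]
  · rw [div_eq_mul_inv, finsum_mul']
    · apply finsum_congr
      intro w
      unfold finPart
      rw [ite_mul, zero_mul, div_eq_mul_inv]
      by_cases hc : w ∈ B ∨ PoleLE W N w
      · exact (if_pos hc).trans (if_pos hc).symm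
      · exact (if_neg hc).trans (if_neg hc).symm
    · have h := Pool.Agent.Helper86.LH.fin_gt (K := K) W.j
      refine Set.Finite.subset h ?_
      intro w hw
      by_contra hc
      apply hw
      simp only [Set.mem_ofPred_eq, not_lt] at hc
      dsimp only
      rw [Real.posLog_eq_log_max_one (w.val.nonneg _), max_eq_left hc, Real.log_one, ite_self]

/-- The height of the curve is at least the height of `j`. -/
theorem heightJ_le_heightE : heightJ W ≤ heightE W := by
  have hd : (0 : ℝ) < Module.finrank ℚ K := by exact_mod_cast Module.finrank_pos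
  rw [heightJ_eq, heightE, sum_discPart, sum_finPart, add_comm, add_le_add_iff_right,
    div_le_div_iff_of_pos_right hd]
  exact Pool.Agent.Helper86.LM.hfin_le_dmin W

end

/-- Lang's inequality when, after removing `s` places, the infinite places and the finite places
with `ord_w j < -N` contribute at most `(1 - δ)` times the height of the curve; with an explicit
bound, polynomial in `s`, `N`, `δ` and with absolute constants. -/
theorem result (K : Type*) [Field K] [NumberField K] [DecidableEq K] (s N : ℕ) {δ ε : ℝ}
    (hδ0 : 0 < δ) (hδ1 : δ ≤ 1) (hε : ε = δ / (8 * (s + N ^ 2 + N + 1))) :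
    ∃ c : ℝ, 0 < c ∧ ∀ (W : Affine K) [W.IsElliptic] (P : W.Point),
      (∀ n : ℕ, 0 < n → n • P ≠ 0) →
      (∃ (A : Finset (InfinitePlace K)) (B : Finset (FinitePlace K)), A.card + B.card ≤ s ∧
        deepPart W A B N ≤ (1 - δ) * heightE W) →
      ∃ H : ℝ, IsCanonicalHeight P H ∧ c * max 1 (heightE W) ≤ H ∧
        ε ^ 3 * heightE W / 450000 - 6 * ε ≤ H := by
  have hd : (0 : ℝ) < Module.finrank ℚ K := by
    exact_mod_cast Module.finrank_pos
  have ht : (Height.totalWeight K : ℝ) = Module.finrank ℚ K := by
    rw [NumberField.totalWeight_eq_finrank]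
  have hs0 : (0 : ℝ) ≤ s := Nat.cast_nonneg _
  have hN0 : (0 : ℝ) ≤ N := Nat.cast_nonneg _
  have hN2 : (0 : ℝ) ≤ (N : ℝ) ^ 2 := sq_nonneg _
  have hden : (0 : ℝ) < 8 * (s + N ^ 2 + N + 1) := by linarith
  have hε0 : 0 < ε := by rw [hε]; positivity
  have hε1 : ε ≤ 1 := by
    rw [hε, div_le_iff₀ hden]
    linarith
  have hd3' : 0 < ε ^ 3 := by positivity
  -- the height beyond which the explicit bound is positive
  set E0 : ℝ := 5400000 / ε ^ 2 with hE0
  have he2 : 0 < ε ^ 2 := by positivity
  have he2' : ε ^ 2 ≤ 1 := pow_le_one₀ hε0.le hε1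
  have hE0L : ε ^ 3 * E0 = 5400000 * ε := by
    rw [hE0]
    field_simp
  have hE01 : 1 ≤ E0 := by
    rw [hE0, le_div_iff₀ he2]
    linarith
  obtain ⟨c1, hc1, hc⟩ := Pool.Agent.Helper86.LM.uniform K (E0 * Module.finrank ℚ K)
  have hE00 : 0 < E0 := by linarith
  refine ⟨min (ε ^ 3 / 900000) (c1 / Module.finrank ℚ K / E0), by positivity,
    fun W _ P hP h => ?_⟩
  obtain ⟨H, hH, hHm, hH0⟩ := Pool.Agent.Helper86.LH.canon W
  have e2 : (∑ v : InfinitePlace K, infPart W v) * Module.finrank ℚ K =
      Pool.Agent.Helper86.LH.hinf W := by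
    unfold infPart Pool.Agent.Helper86.LH.hinf
    rw [Pool.Agent.Helper86.LH.asum_eq, Finset.sum_mul]
    refine Finset.sum_congr rfl fun v _ => ?_
    rw [div_mul_cancel₀ _ hd.ne']
    rfl
  have e4 : heightE W = (Pool.Agent.Helper86.LK.dmin W + Pool.Agent.Helper86.LH.hinf W) /
      Module.finrank ℚ K := by
    rw [heightE, sum_discPart, ← e2]
    field_simp
  have main : ε ^ 3 * heightE W / 450000 - 6 * ε ≤ H P / Module.finrank ℚ K := by
    obtain ⟨A, B, hAB, hw⟩ := h
    rw [deepPart_eq, e4, ← mul_div_assoc, div_le_div_iff_of_pos_right hd] at hw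
    have key := Pool.Agent.Helper86.LP.rel6 W hδ0 hδ1 P hP hH hHm hH0 hε A B hAB hw
    rw [ht] at key
    rw [le_div_iff₀ hd, sub_mul]
    have e3 : ε ^ 3 * heightE W / 450000 * Module.finrank ℚ K =
        ε ^ 3 * (Pool.Agent.Helper86.LK.dmin W + Pool.Agent.Helper86.LH.hinf W) / 450000 := by
      rw [e4]
      field_simp
    rw [e3]
    exact key
  refine ⟨H P / Module.finrank ℚ K, ?_, ?_, main⟩
  · have h1 := (hH P).div_const (Module.finrank ℚ K : ℝ)
    refine h1.congr fun n => ?_
    unfold heightX
    ring
  · rcases le_total E0 (heightE W) with hE | hE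
    · have h1 : max 1 (heightE W) = heightE W := max_eq_right (hE01.trans hE)
      have h2 : ε ^ 3 * E0 ≤ ε ^ 3 * heightE W := mul_le_mul_of_nonneg_left hE hd3'.le
      have h3 : 0 ≤ heightE W := by linarith
      have h4 : min (ε ^ 3 / 900000) (c1 / Module.finrank ℚ K / E0) * heightE W ≤
          ε ^ 3 / 900000 * heightE W := mul_le_mul_of_nonneg_right (min_le_left _ _) h3
      rw [h1]
      linarith
    · have h1 : max 1 (heightE W) ≤ E0 := max_le hE01 hE
      have h2 : Height.logHeight₁ W.j ≤ E0 * Module.finrank ℚ K := by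
        have h3 := (heightJ_le_heightE W).trans hE
        rw [heightJ, div_le_iff₀ hd] at h3
        exact h3
      have h4 := hc W P hP H hH hHm hH0 h2
      have h5 : c1 / Module.finrank ℚ K ≤ H P / Module.finrank ℚ K :=
        div_le_div_of_nonneg_right h4 hd.le
      have h6 : min (ε ^ 3 / 900000) (c1 / Module.finrank ℚ K / E0) * max 1 (heightE W) ≤
          c1 / Module.finrank ℚ K / E0 * E0 := by
        apply mul_le_mul (min_le_right _ _) h1 (le_trans zero_le_one (le_max_left _ _))
        positivity
      rw [div_mul_cancel₀ _ hE00.ne'] at h6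
      linarith

end Pool.Agent.Results.MP_f0457e_nt.ManyDeepPoles
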