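import Pool.Agent.Helper86.LH.Last

/-!
MP_f0457e_nt, Q1 (Lang's lower bound for the canonical height): elliptic curves
over number fields for which one place carries a positive share of the height of `j`.
-/

set_option autoImplicit false

open Filter Topology NumberField WeierstrassCurve

namespace Pool.Agent.Results.MP_f0457e_nt.OnePlace

section

variable {K : Type*} [Field K] [NumberField K]

/-- Absolute logarithmic Weil height of the `x`-coordinate of a point (`xRep` is `(x : 1)` for an
affine point and `(1 : 0)` for the origin; Mathlib's `logHeight` is relative to `K`). -/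
noncomputable def heightX {W : Affine K} (P : W.Point) : ℝ :=
  Height.logHeight P.xRep / Module.finrank ℚ K

/-- `H` is the Neron-Tate canonical height of `P`. -/
def IsCanonicalHeight [DecidableEq K] {W : Affine K} (P : W.Point) (H : ℝ) : Prop :=
  Tendsto (fun n : ℕ => heightX (2 ^ n • P) / 4 ^ n) atTop (𝓝 H)

variable (W : Affine K) [W.IsElliptic]

/-- Absolute logarithmic Weil height of the `j`-invariant. -/
noncomputable def heightJ : ℝ := Height.logHeight₁ W.j / Module.finrank ℚ K

/-- Contribution of an infinite place to the height of `j`. -/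
noncomputable def infPart (w : InfinitePlace K) : ℝ :=
  w.mult * Real.posLog (w W.j) / Module.finrank ℚ K

/-- Contribution of a finite place to the height of `j`. -/
noncomputable def finPart (w : FinitePlace K) : ℝ :=
  Real.posLog (w W.j) / Module.finrank ℚ K

theorem sum_finPart : ∑ᶠ w : FinitePlace K, finPart W w =
    (∑ᶠ w : FinitePlace K, Real.posLog (w W.j)) / Module.finrank ℚ K := by
  unfold finPart
  rw [div_eq_mul_inv (finsum _), finsum_mul']
  · simp only [div_eq_mul_inv]
  · have h := Pool.Agent.Helper86.LH.fin_gt (K := K) W.j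
    refine Set.Finite.subset (s := {w : FinitePlace K | 1 < w.val W.j}) h ?_
    intro w hw
    by_contra hc
    apply hw
    simp only [Set.mem_ofPred_eq, not_lt] at hc
    have hwv : w W.j = w.val W.j := rfl
    simp only
    rw [hwv, Real.posLog_eq_log_max_one (w.val.nonneg _), max_eq_left hc, Real.log_one]

/-- The height of `j` is the sum of the contributions of all places. -/
theorem heightJ_eq : heightJ W = ∑ w : InfinitePlace K, infPart W w +
    ∑ᶠ w : FinitePlace K, finPart W w := by
  rw [sum_finPart]
  unfold heightJ infPart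
  rw [NumberField.logHeight₁_eq, add_div, Finset.sum_div]

end

/-- Lang's lower bound with constant `δ³/4000` when one place carries a share `δ`. -/
theorem result {K : Type*} [Field K] [NumberField K] [DecidableEq K] (W : Affine K)
    [W.IsElliptic] (P : W.Point) (hP : ∀ n : ℕ, 0 < n → n • P ≠ 0) :
    ∃ H : ℝ, IsCanonicalHeight P H ∧ ∀ δ : ℝ, 0 < δ → δ ≤ 1 →
      (((∃ w : InfinitePlace K, δ * heightJ W ≤ infPart W w) ∨
          (∃ w : FinitePlace K, δ * heightJ W ≤ finPart W w)) →
        δ ^ 3 * heightJ W / 4000 - 5 * (4 : ℝ) ^ (15 / δ) ≤ H) ∧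
      ((∃ w : FinitePlace K, δ * (∑ᶠ v : FinitePlace K, finPart W v) ≤ finPart W w) →
        δ ^ 3 * (∑ᶠ v : FinitePlace K, finPart W v) / 4000 -
          δ ^ 2 * (1 + ∑ v : InfinitePlace K, infPart W v) ≤ H) := by
  obtain ⟨H, hH, hHm, hH0⟩ := Pool.Agent.Helper86.LH.canon W
  have hd : (0 : ℝ) < Module.finrank ℚ K := by
    exact_mod_cast Module.finrank_pos
  have ht : (Height.totalWeight K : ℝ) = Module.finrank ℚ K := by
    rw [NumberField.totalWeight_eq_finrank]
  refine ⟨H P / Module.finrank ℚ K, ?_, fun δ hδ0 hδ1 => ⟨?_, ?_⟩⟩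
  · have h1 := (hH P).div_const (Module.finrank ℚ K : ℝ)
    refine h1.congr fun n => ?_
    unfold heightX
    ring
  · intro h
    have key : δ ^ 3 * Height.logHeight₁ W.j / 4000 -
        5 * (4 : ℝ) ^ (15 / δ) * Height.totalWeight K ≤ H P := by
      rcases h with ⟨w, hw⟩ | ⟨w, hw⟩
      · refine Pool.Agent.Helper86.LH.last_inf W hδ0 hδ1 P hP hH hHm hH0 w ?_
        unfold heightJ infPart at hw
        rw [← mul_div_assoc, div_le_div_iff_of_pos_right hd] at hw
        exact hw
      · refine Pool.Agent.Helper86.LH.last_fin W hδ0 hδ1 P hP hH hHm hH0 w ?_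
        unfold heightJ finPart at hw
        rw [← mul_div_assoc, div_le_div_iff_of_pos_right hd] at hw
        exact hw
    rw [ht] at key
    rw [le_div_iff₀ hd, sub_mul]
    unfold heightJ
    have e : δ ^ 3 * (Height.logHeight₁ W.j / Module.finrank ℚ K) / 4000 * Module.finrank ℚ K =
        δ ^ 3 * Height.logHeight₁ W.j / 4000 := by
      field_simp
    rw [e]
    exact key
  · rintro ⟨w, hw⟩
    rw [sum_finPart] at hw ⊢
    have e1 : (∑ᶠ v : FinitePlace K, Real.posLog (v W.j)) = Pool.Agent.Helper86.LH.hfin W := rfl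
    have e2 : (∑ v : InfinitePlace K, infPart W v) * Module.finrank ℚ K =
        Pool.Agent.Helper86.LH.hinf W := by
      unfold infPart Pool.Agent.Helper86.LH.hinf
      rw [Pool.Agent.Helper86.LH.asum_eq, Finset.sum_mul]
      refine Finset.sum_congr rfl fun v _ => ?_
      rw [div_mul_cancel₀ _ hd.ne']
      rfl
    rw [e1] at hw ⊢
    unfold finPart at hw
    rw [← mul_div_assoc, div_le_div_iff_of_pos_right hd] at hw
    have h6 : (6 : K) ≠ 0 := by norm_num
    obtain ⟨H', hH', key⟩ := Pool.Agent.Helper86.LH.fin_main W h6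
      Pool.Agent.Helper86.LH.arch_two_three hδ0 hδ1 ⟨w.val, w.2⟩ hw P hP
    have hHH : H' = H P := tendsto_nhds_unique hH' (hH P)
    rw [hHH, ht] at key
    rw [le_div_iff₀ hd, sub_mul]
    have e3 : δ ^ 3 * (Pool.Agent.Helper86.LH.hfin W / Module.finrank ℚ K) / 4000 *
        Module.finrank ℚ K = δ ^ 3 * Pool.Agent.Helper86.LH.hfin W / 4000 := by
      field_simp
    have e4 : δ ^ 2 * (1 + ∑ v : InfinitePlace K, infPart W v) * Module.finrank ℚ K =
        δ ^ 2 * (Module.finrank ℚ K + Pool.Agent.Helper86.LH.hinf W) := by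
      rw [← e2]
      ring
    rw [e3, e4]
    exact key

end Pool.Agent.Results.MP_f0457e_nt.OnePlace
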